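import Pool.Agent.H465.CG.Stm

/-!
# Project CG (helper465), SLong: pairs of ideals of large norm in the same class
-/

set_option autoImplicit false

open NumberField Finset
open Pool.Agent.H465.CG

namespace Pool.Agent.H740.CGL

theorem summable_max {c b : ℝ} (hc : 0 < c) (hb : 1 < b) :
    Summable (fun n : ℤ => (max c |(n : ℝ)|) ^ (-b)) := by
  have h1 : Summable (fun n : ℤ => |(n : ℝ)| ^ (-b)) := Real.summable_abs_int_rpow hb
  have h2 : Summable (fun n : ℤ => if n = 0 then c ^ (-b) else 0) := by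
    refine summable_of_ne_finset_zero (s := {0}) ?_
    intro n hn
    rw [if_neg]
    simpa using hn
  refine Summable.of_nonneg_of_le (fun n => Real.rpow_nonneg (le_trans hc.le (le_max_left _ _)) _)
    (fun n => ?_) (h1.add h2)
  by_cases hn : n = 0
  · subst hn
    rw [if_pos rfl, Int.cast_zero, abs_zero, max_eq_left hc.le]
    have : 0 ≤ (0:ℝ) ^ (-b) := Real.rpow_nonneg le_rfl _
    linarith
  · rw [if_neg hn, add_zero]
    have h3 : 0 < |(n : ℝ)| := abs_pos.2 (by exact_mod_cast hn)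
    exact Real.rpow_le_rpow_of_nonpos h3 (le_max_right _ _) (by linarith)

theorem sum_le_prod (g₁ g₂ : ℤ → ℝ) (h1 : ∀ n, 0 ≤ g₁ n) (h2 : ∀ n, 0 ≤ g₂ n)
    (s1 : Summable g₁) (s2 : Summable g₂) (F : Finset (ℤ × ℤ)) :
    ∑ x ∈ F, g₁ x.1 * g₂ x.2 ≤ (∑' n, g₁ n) * ∑' n, g₂ n := by
  classical
  have hsub : F ⊆ F.image Prod.fst ×ˢ F.image Prod.snd := by
    intro x hx
    exact mem_product.2 ⟨mem_image_of_mem _ hx, mem_image_of_mem _ hx⟩
  calc ∑ x ∈ F, g₁ x.1 * g₂ x.2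
      ≤ ∑ x ∈ F.image Prod.fst ×ˢ F.image Prod.snd, g₁ x.1 * g₂ x.2 :=
        sum_le_sum_of_subset_of_nonneg hsub (fun x _ _ => mul_nonneg (h1 _) (h2 _))
    _ = (∑ n ∈ F.image Prod.fst, g₁ n) * ∑ n ∈ F.image Prod.snd, g₂ n := by
        rw [sum_product, sum_mul_sum]
    _ ≤ (∑' n, g₁ n) * ∑' n, g₂ n := by
        refine mul_le_mul (s1.sum_le_tsum _ (fun n _ => h1 n)) (s2.sum_le_tsum _ (fun n _ => h2 n))
          (sum_nonneg (fun n _ => h2 n)) (tsum_nonneg h1)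

theorem rpow_half {x a : ℝ} (hx : 0 < x) : (x ^ 2) ^ (-(a / 2)) = x ^ (-a) := by
  rw [← Real.rpow_natCast, ← Real.rpow_mul hx.le]
  congr 1
  push_cast
  ring

/-- the elementary inequality -/
theorem elem {N A δ : ℝ} {t j : ℤ} (hA : 1 ≤ A) (hN : 1 ≤ N) (hδ : 0 < δ) (hδ' : δ ≤ 1 / 40)
    (h4 : 4 * N = (t : ℝ) ^ 2 + (j : ℝ) ^ 2 * A) (h9 : A < 9 * N) :
    N ^ δ * N ^ (-(5 / 4) : ℝ) ≤ 4 ^ (5 / 4 - δ) *
      ((max 1 |(t : ℝ)|) ^ (-(1 + δ)) * (max (1 / 4) |(j : ℝ)|) ^ (-(3 / 2 - 3 * δ))) *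
        A ^ (-(3 / 4) + 3 * δ / 2) := by
  have hN0 : 0 < N := by linarith
  have hA0 : 0 < A := by linarith
  set u : ℝ := max 1 |(t : ℝ)| with hu
  set w : ℝ := max (1 / 4) |(j : ℝ)| with hw
  have hu0 : 0 < u := lt_of_lt_of_le one_pos (le_max_left _ _)
  have hw0 : 0 < w := lt_of_lt_of_le (by norm_num) (le_max_left _ _)
  have hu2 : u ^ 2 ≤ 4 * N := by
    rcases max_cases (1:ℝ) |(t : ℝ)| with ⟨h, _⟩ | ⟨h, _⟩
    · rw [hu, h]; linarith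
    · rw [hu, h, sq_abs]
      have : 0 ≤ (j : ℝ) ^ 2 * A := by positivity
      linarith
  have hw2 : A * w ^ 2 ≤ 4 * N := by
    rcases max_cases (1 / 4:ℝ) |(j : ℝ)| with ⟨h, _⟩ | ⟨h, _⟩
    · rw [hw, h]; linarith
    · rw [hw, h, sq_abs]
      have : 0 ≤ (t : ℝ) ^ 2 := by positivity
      linarith
  have e1 : N ^ δ * N ^ (-(5 / 4) : ℝ) = 4 ^ (5 / 4 - δ) * (4 * N) ^ (-(5 / 4 - δ)) := by
    rw [Real.mul_rpow (by norm_num) hN0.le, ← mul_assoc, ← Real.rpow_add (x := 4) (by norm_num),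
      ← Real.rpow_add hN0]
    rw [add_neg_cancel, Real.rpow_zero, one_mul]
    congr 1
    ring
  have e2 : (4 * N) ^ (-(5 / 4 - δ)) =
      (4 * N) ^ (-((1 + δ) / 2)) * (4 * N) ^ (-((3 / 2 - 3 * δ) / 2)) := by
    rw [← Real.rpow_add (by positivity)]
    congr 1
    ring
  have b1 : (4 * N) ^ (-((1 + δ) / 2)) ≤ u ^ (-(1 + δ)) := by
    rw [← rpow_half hu0]
    exact Real.rpow_le_rpow_of_nonpos (by positivity) hu2 (by linarith)
  have b2 : (4 * N) ^ (-((3 / 2 - 3 * δ) / 2)) ≤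
      w ^ (-(3 / 2 - 3 * δ)) * A ^ (-(3 / 4) + 3 * δ / 2) := by
    have e3 : w ^ (-(3 / 2 - 3 * δ)) * A ^ (-(3 / 4) + 3 * δ / 2) =
        (A * w ^ 2) ^ (-((3 / 2 - 3 * δ) / 2)) := by
      rw [Real.mul_rpow hA0.le (by positivity), rpow_half hw0, mul_comm]
      congr 2
      ring
    rw [e3]
    exact Real.rpow_le_rpow_of_nonpos (by positivity) hw2 (by linarith)
  rw [e1, e2, mul_assoc, mul_assoc]
  refine mul_le_mul_of_nonneg_left ?_ (by positivity)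
  exact mul_le_mul b1 b2 (by positivity) (by positivity)

section

variable {K : Type} [Field K] [NumberField K]

theorem NN_pos {I : Ideal (𝓞 K)} (h : I ≠ ⊥) : 1 ≤ NN I := by
  unfold NN
  have h1 : Ideal.absNorm I ≠ 0 := fun h2 => h (Ideal.absNorm_eq_zero_iff.1 h2)
  exact_mod_cast Nat.one_le_iff_ne_zero.2 h1

theorem one_le_AA {m : ℕ} (hm : 1 ≤ m) : 1 ≤ AA K m := by
  unfold AA
  have h1 : (1:ℝ) ≤ |(discr K : ℝ)| := by
    have h2 : (1:ℤ) ≤ |discr K| := Int.one_le_abs (discr_ne_zero K)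
    have h3 : ((1:ℤ):ℝ) ≤ ((|discr K| : ℤ) : ℝ) := Int.cast_le.2 h2
    simpa using h3
  have h4 : (1:ℝ) ≤ m := by exact_mod_cast hm
  have h5 : (1:ℝ) ≤ (m:ℝ) ^ 2 := one_le_pow₀ h4
  nlinarith

theorem J_dvd {m : ℕ} (J : 𝓞 K →+ ℤ) (h1 : J 1 = 0) {β : 𝓞 K} {N : ℕ}
    (h : β - (N : 𝓞 K) ∈ Ideal.span {(m : 𝓞 K)}) : ∃ j : ℤ, J β = m * j := by
  obtain ⟨γ, hγ⟩ := Ideal.mem_span_singleton.1 h
  refine ⟨J γ, ?_⟩
  have e1 : β = N • (1 : 𝓞 K) + m • γ := by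
    rw [nsmul_eq_mul, nsmul_eq_mul, mul_one, ← hγ]; ring
  rw [e1, map_add, map_nsmul, map_nsmul, h1, smul_zero, zero_add, nsmul_eq_mul]

theorem tJ_inj {t J : 𝓞 K →+ ℤ} (h : ∀ x : 𝓞 K, 4 * NN (Ideal.span {x}) =
    (t x : ℝ) ^ 2 + (J x : ℝ) ^ 2 * |(discr K : ℝ)|) {x y : 𝓞 K} (h1 : t x = t y)
    (h2 : J x = J y) : x = y := by
  rw [← sub_eq_zero]
  by_contra hne
  have h3 := h (x - y)
  rw [map_sub, map_sub, h1, h2, sub_self, sub_self] at h3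
  have h4 : Ideal.span {x - y} ≠ ⊥ := by
    rwa [Ne, Ideal.span_singleton_eq_bot]
  have h5 := NN_pos h4
  simp at h3
  linarith

end

theorem main {δ Cd : ℝ} (hδ : 0 < δ) (hδ' : δ ≤ 1 / 40) (hCd : 1 ≤ Cd)
    (K : Type) [Field K] [NumberField K] [IsTotallyComplex K]
    (hfr : Module.finrank ℚ K = 2)
    (hG : ∃ t J : 𝓞 K →+ ℤ, J 1 = 0 ∧
      ∀ x : 𝓞 K, 4 * NN (Ideal.span {x}) = (t x : ℝ) ^ 2 + (J x : ℝ) ^ 2 * |(discr K : ℝ)|)
    (hP : SPair)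
    (hD : ∀ (J : Ideal (𝓞 K)), J ≠ ⊥ → ∀ S : Finset (Ideal (𝓞 K)),
      (∀ 𝔠 ∈ S, 𝔠 ∣ J) → (S.card : ℝ) ≤ Cd * NN J ^ δ)
    (m : ℕ) (hm : 1 ≤ m) (F : Finset (Ideal (𝓞 K) × Ideal (𝓞 K)))
    (hF : ∀ p ∈ F, Rel m p.1 p.2 ∧ (p.1 ≠ ⊥ ∧ AA K m < 9 * NN p.1 ^ 2) ∧
      (p.2 ≠ ⊥ ∧ AA K m < 9 * NN p.2 ^ 2)) :
    ∑ p ∈ F, (NN p.1 * NN p.2) ^ (-(5 / 4) : ℝ) ≤
      Cd * 4 ^ (5 / 4 - δ) * ((∑' n : ℤ, (max 1 |(n : ℝ)|) ^ (-(1 + δ))) *
        ∑' n : ℤ, (max (1 / 4) |(n : ℝ)|) ^ (-(3 / 2 - 3 * δ))) * AA K m ^ (-(3 / 4) + 3 * δ / 2) := by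
  classical
  obtain ⟨t, J, hJ1, hG⟩ := hG
  have hA := one_le_AA (K := K) hm
  have hA0 : 0 < AA K m := by linarith
  have hx : ∀ p : Ideal (𝓞 K) × Ideal (𝓞 K), ∃ q : 𝓞 K × Ideal (𝓞 K), p ∈ F → (q.1 ≠ 0 ∧
      p.2 * q.2 = Ideal.span {(Ideal.absNorm p.2 : 𝓞 K)} ∧
      p.1 * q.2 = Ideal.span {q.1} ∧ NN q.2 = NN p.2 ∧ NN (Ideal.span {q.1}) = NN p.1 * NN p.2 ∧
      q.1 - (Ideal.absNorm p.2 : 𝓞 K) ∈ Ideal.span {(m : 𝓞 K)}) := by
    intro p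
    by_cases hp : p ∈ F
    · obtain ⟨h1, h2, h3⟩ := hF p hp
      obtain ⟨β, 𝔠, h⟩ := hP K hfr m p.1 p.2 hm h2.1 h3.1 h1
      exact ⟨(β, 𝔠), fun _ => h⟩
    · exact ⟨(0, ⊥), fun h => absurd h hp⟩
  choose q hq using hx
  -- the pair is determined by `q p`
  have hinj : ∀ p ∈ F, ∀ p' ∈ F, q p = q p' → p = p' := by
    intro p hp p' hp' he
    obtain ⟨_, a2, a3, a4, _, _⟩ := hq p hp
    obtain ⟨_, b2, b3, b4, _, _⟩ := hq p' hp'
    rw [he] at a2 a3 a4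
    have hc0 : (q p').2 ≠ ⊥ := by
      intro h0
      have h1 := NN_pos (hF p' hp').2.2.1
      rw [← b4, h0] at h1
      unfold NN at h1
      simp at h1
      linarith
    have hn : Ideal.absNorm p.2 = Ideal.absNorm p'.2 := by
      have : NN p.2 = NN p'.2 := by rw [← a4, b4]
      unfold NN at this
      exact_mod_cast this
    have e2 : p.2 = p'.2 := by
      apply mul_right_cancel₀ (b := (q p').2) hc0
      rw [a2, b2, hn]
    have e1 : p.1 = p'.1 := by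
      apply mul_right_cancel₀ (b := (q p').2) hc0
      rw [a3, b3]
    exact Prod.ext e1 e2
  set B : Finset (𝓞 K) := F.image (fun p => (q p).1) with hB
  set N : 𝓞 K → ℝ := fun b => NN (Ideal.span {b}) with hN
  have step1 : ∑ p ∈ F, (NN p.1 * NN p.2) ^ (-(5 / 4) : ℝ) ≤
      ∑ b ∈ B, Cd * (N b ^ δ * N b ^ (-(5 / 4) : ℝ)) := by
    have e : ∑ p ∈ F, (NN p.1 * NN p.2) ^ (-(5 / 4) : ℝ) =
        ∑ p ∈ F, N (q p).1 ^ (-(5 / 4) : ℝ) := by
      refine sum_congr rfl (fun p hp => ?_)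
      rw [hN]
      simp only
      rw [(hq p hp).2.2.2.2.1]
    rw [e, ← sum_fiberwise_of_maps_to (t := B) (g := fun p => (q p).1)
      (fun p hp => mem_image_of_mem _ hp)]
    refine sum_le_sum (fun b hb => ?_)
    have e' : ∑ p ∈ F.filter (fun p => (q p).1 = b), N (q p).1 ^ (-(5 / 4) : ℝ) =
        ((F.filter (fun p => (q p).1 = b)).card : ℝ) * N b ^ (-(5 / 4) : ℝ) := by
      rw [← nsmul_eq_mul, ← sum_const]
      refine sum_congr rfl (fun p hp => ?_)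
      rw [(mem_filter.1 hp).2]
    rw [e', ← mul_assoc]
    obtain ⟨p₀, hp₀, hb₀⟩ := mem_image.1 hb
    have hb0 : b ≠ 0 := by rw [← hb₀]; exact (hq p₀ hp₀).1
    have hspan : Ideal.span {b} ≠ ⊥ := by
      rwa [Ne, Ideal.span_singleton_eq_bot]
    refine mul_le_mul_of_nonneg_right ?_
      (Real.rpow_nonneg (le_trans zero_le_one (NN_pos hspan)) _)
    have hcard : (F.filter (fun p => (q p).1 = b)).card =
        ((F.filter (fun p => (q p).1 = b)).image (fun p => (q p).2)).card := by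
      rw [card_image_of_injOn]
      intro p hp p' hp' he
      have h1 := mem_filter.1 (mem_coe.1 hp)
      have h2 := mem_filter.1 (mem_coe.1 hp')
      exact hinj p h1.1 p' h2.1 (Prod.ext (h1.2.trans h2.2.symm) he)
    rw [hcard]
    refine hD _ hspan _ ?_
    intro 𝔠 h𝔠
    obtain ⟨p, hp, rfl⟩ := mem_image.1 h𝔠
    have h1 := mem_filter.1 hp
    rw [← h1.2, ← (hq p h1.1).2.2.1]
    exact Dvd.intro_left _ rfl
  refine step1.trans ?_
  rw [← mul_sum]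
  rw [mul_assoc, mul_assoc]
  refine mul_le_mul_of_nonneg_left ?_ (by linarith)
  set τ : 𝓞 K → ℤ × ℤ := fun b => (t b, J b / m) with hτ
  have hmdvd : ∀ b ∈ B, J b = m * (J b / m) := by
    intro b hb
    obtain ⟨p, hp, rfl⟩ := mem_image.1 hb
    obtain ⟨j, hj⟩ := J_dvd J hJ1 (hq p hp).2.2.2.2.2
    have hm0 : (m : ℤ) ≠ 0 := by exact_mod_cast (by omega : m ≠ 0)
    rw [hj, Int.mul_ediv_cancel_left _ hm0]
  have hτinj : Set.InjOn τ B := by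
    intro b hb b' hb' he
    have h1 := congrArg Prod.fst he
    have h2 := congrArg Prod.snd he
    simp only [hτ] at h1 h2
    apply tJ_inj hG h1
    rw [hmdvd b hb, hmdvd b' hb', h2]
  have step2 : ∀ b ∈ B, N b ^ δ * N b ^ (-(5 / 4) : ℝ) ≤ 4 ^ (5 / 4 - δ) *
      ((max 1 |((τ b).1 : ℝ)|) ^ (-(1 + δ)) * (max (1 / 4) |((τ b).2 : ℝ)|) ^ (-(3 / 2 - 3 * δ))) *
        AA K m ^ (-(3 / 4) + 3 * δ / 2) := by
    intro b hb
    obtain ⟨p, hp, hpb⟩ := mem_image.1 hb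
    have hb0 : b ≠ 0 := by rw [← hpb]; exact (hq p hp).1
    have hspan : Ideal.span {b} ≠ ⊥ := by
      rwa [Ne, Ideal.span_singleton_eq_bot]
    refine elem hA (NN_pos hspan) hδ hδ' ?_ ?_
    · show 4 * NN (Ideal.span {b}) = _
      rw [hG b]
      simp only [hτ]
      have h1 := hmdvd b hb
      have h2 : (J b : ℝ) = (m : ℝ) * ((J b / m : ℤ) : ℝ) := by
        have := congrArg (fun z : ℤ => (z : ℝ)) h1
        simpa using this
      rw [h2]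
      unfold AA
      ring
    · have h1 := (hq p hp).2.2.2.2.1
      rw [hpb] at h1
      obtain ⟨_, ⟨h2, h3⟩, h4, h5⟩ := hF p hp
      have h6 := NN_pos h2
      have h7 := NN_pos h4
      show AA K m < 9 * NN (Ideal.span {b})
      rw [h1]
      have h8 : AA K m ^ 2 < (9 * (NN p.1 * NN p.2)) ^ 2 := by
        have h9 : AA K m * AA K m < (9 * NN p.1 ^ 2) * (9 * NN p.2 ^ 2) :=
          mul_lt_mul'' h3 h5 hA0.le hA0.le
        nlinarith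
      exact lt_of_pow_lt_pow_left₀ 2 (by positivity) h8
  refine (sum_le_sum step2).trans ?_
  rw [← sum_mul, ← mul_sum, mul_assoc]
  refine mul_le_mul_of_nonneg_left ?_ (by positivity)
  refine mul_le_mul_of_nonneg_right ?_ (Real.rpow_nonneg hA0.le _)
  rw [← sum_image (f := fun x : ℤ × ℤ => (max 1 |(x.1 : ℝ)|) ^ (-(1 + δ)) *
    (max (1 / 4) |(x.2 : ℝ)|) ^ (-(3 / 2 - 3 * δ))) hτinj]
  exact sum_le_prod (fun n : ℤ => (max 1 |(n : ℝ)|) ^ (-(1 + δ)))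
    (fun n : ℤ => (max (1 / 4) |(n : ℝ)|) ^ (-(3 / 2 - 3 * δ)))
    (fun n => Real.rpow_nonneg (le_trans zero_le_one (le_max_left _ _)) _)
    (fun n => Real.rpow_nonneg (le_trans (by norm_num) (le_max_left _ _)) _)
    (summable_max one_pos (by linarith)) (summable_max (by norm_num) (by linarith)) _

open Classical in
/-- LONG -/
theorem t_long : SGeo → SPair → SDiv → SLong := by
  intro hG hP hD ε hε
  set δ : ℝ := min ε (1 / 20) / 2 with hδdef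
  have hm0 : 0 < min ε (1 / 20 : ℝ) := lt_min hε (by norm_num)
  have hδ : 0 < δ := by rw [hδdef]; linarith
  have hδ' : δ ≤ 1 / 40 := by
    have := min_le_right ε (1 / 20 : ℝ)
    rw [hδdef]; linarith
  have hδε : 3 * δ / 2 ≤ ε := by
    have := min_le_left ε (1 / 20 : ℝ)
    rw [hδdef]; linarith
  obtain ⟨Cd, hCd, hD⟩ := hD δ hδ
  set C : ℝ := Cd * 4 ^ (5 / 4 - δ) * ((∑' n : ℤ, (max 1 |(n : ℝ)|) ^ (-(1 + δ))) *
        ∑' n : ℤ, (max (1 / 4) |(n : ℝ)|) ^ (-(3 / 2 - 3 * δ))) with hC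
  refine ⟨max 1 C, le_max_left _ _, ?_⟩
  intro K _ _ _ hfr m hm S hS
  have hA := one_le_AA (K := K) hm
  have h1 := main hδ hδ' hCd K hfr (hG K hfr) hP (hD K hfr) m hm
    ((S ×ˢ S).filter (fun p => Rel m p.1 p.2)) (by
      intro p hp
      obtain ⟨h1, h2⟩ := mem_filter.1 hp
      obtain ⟨h3, h4⟩ := mem_product.1 h1
      exact ⟨h2, hS _ h3, hS _ h4⟩)
  refine h1.trans ?_
  have h2 : AA K m ^ (-(3 / 4) + 3 * δ / 2) ≤ AA K m ^ (-(3 / 4) + ε) :=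
    Real.rpow_le_rpow_of_exponent_le hA (by linarith)
  exact mul_le_mul (le_max_right _ _) h2 (Real.rpow_nonneg (by linarith) _)
    (le_trans zero_le_one (le_max_left _ _))

end Pool.Agent.H740.CGL
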