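import Pool.Agent.H979.FR.Stm

set_option autoImplicit false
set_option linter.unusedVariables false

open MeasureTheory ProbabilityTheory
open scoped ENNReal NNReal

/-!
# The frog model with death: insertion of a particle
-/

namespace Pool.Agent.H740

namespace FRINS

open Pool.Agent.H979.FR

/-! ### Resampling one coordinate of a product measure -/

section Resample

variable {ι : Type} [DecidableEq ι] {S : Type} [MeasurableSpace S]

lemma upd_meas (o : ι) :
    Measurable fun q : S × (ι → S) => (Function.update q.2 o q.1 : ι → S) := by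
  rw [measurable_pi_iff]
  intro i
  by_cases h : i = o
  · subst h
    simpa using measurable_fst
  · simp only [Function.update_of_ne h]
    exact (measurable_pi_apply i).comp measurable_snd

lemma upd_map (ν : Measure S) [IsProbabilityMeasure ν] (o : ι) :
    (ν.prod (Measure.infinitePi fun _ : ι => ν)).map
      (fun q : S × (ι → S) => (Function.update q.2 o q.1 : ι → S)) =
      Measure.infinitePi fun _ : ι => ν := by
  refine Measure.eq_infinitePi _ fun s t ht => ?_
  rw [Measure.map_apply (upd_meas o) (.pi s.countable_toSet fun i _ => ht i)]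
  by_cases ho : o ∈ s
  · have e : (fun q : S × (ι → S) => (Function.update q.2 o q.1 : ι → S)) ⁻¹' (Set.pi s t) =
        (t o) ×ˢ (Set.pi (s.erase o : Finset ι) t) := by
      ext ⟨a, f⟩
      simp only [Set.mem_preimage, Set.mem_pi, Finset.mem_coe, Set.mem_prod, Finset.mem_erase]
      constructor
      · intro h
        refine ⟨by simpa using h o ho, fun i hi => ?_⟩
        simpa [Function.update_of_ne hi.1] using h i hi.2
      · rintro ⟨h1, h2⟩ i hi
        by_cases hio : i = o
        · subst hio
          simpa using h1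
        · simpa [Function.update_of_ne hio] using h2 i ⟨hio, hi⟩
    rw [e, Measure.prod_prod, Measure.infinitePi_pi _ (fun i _ => ht i),
      Finset.mul_prod_erase s (fun i => ν (t i)) ho]
  · have e : (fun q : S × (ι → S) => (Function.update q.2 o q.1 : ι → S)) ⁻¹' (Set.pi s t) =
        Set.univ ×ˢ (Set.pi s t) := by
      ext ⟨a, f⟩
      simp only [Set.mem_preimage, Set.mem_pi, Finset.mem_coe, Set.mem_prod, Set.mem_univ,
        true_and]
      refine forall₂_congr fun i hi => ?_
      have hio : i ≠ o := fun h => ho (h ▸ hi)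
      simp [Function.update_of_ne hio]
    rw [e, Measure.prod_prod, Measure.infinitePi_pi _ (fun i _ => ht i)]
    simp

/-- a new first element of a sequence -/
def cons0 (q : S × (ℕ → S)) : ℕ → S
  | 0 => q.1
  | n + 1 => q.2 n

lemma cons0_meas : Measurable (cons0 : S × (ℕ → S) → ℕ → S) := by
  rw [measurable_pi_iff]
  intro i
  cases i with
  | zero => exact measurable_fst
  | succ n => exact (measurable_pi_apply n).comp measurable_snd

lemma cons0_map (p : Measure S) [IsProbabilityMeasure p] :
    (p.prod (Measure.infinitePi fun _ : ℕ => p)).map (cons0 : S × (ℕ → S) → ℕ → S) =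
      Measure.infinitePi fun _ : ℕ => p := by
  refine Measure.eq_infinitePi _ fun s t ht => ?_
  rw [Measure.map_apply cons0_meas (.pi s.countable_toSet fun i _ => ht i)]
  have hinj : Function.Injective Nat.succ := Nat.succ_injective
  by_cases ho : 0 ∈ s
  · have e : (cons0 : S × (ℕ → S) → ℕ → S) ⁻¹' (Set.pi s t) =
        (t 0) ×ˢ (Set.pi (s.preimage Nat.succ hinj.injOn : Finset ℕ) (fun i => t (i + 1))) := by
      ext ⟨a, f⟩
      simp only [Set.mem_preimage, Set.mem_pi, Finset.mem_coe, Set.mem_prod, Finset.mem_preimage]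
      constructor
      · intro h
        exact ⟨h 0 ho, fun i hi => h (i + 1) hi⟩
      · rintro ⟨h1, h2⟩ i hi
        cases i with
        | zero => exact h1
        | succ n => exact h2 n hi
    have hs : s = insert 0 ((s.preimage Nat.succ hinj.injOn).image Nat.succ) := by
      ext i
      cases i with
      | zero => simp [ho]
      | succ n => simp
    rw [e, Measure.prod_prod, Measure.infinitePi_pi _ (fun i _ => ht (i + 1))]
    conv_rhs => rw [hs]
    rw [Finset.prod_insert (by simp), Finset.prod_image (by intro a _ b _ h; exact hinj h)]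
  · have e : (cons0 : S × (ℕ → S) → ℕ → S) ⁻¹' (Set.pi s t) =
        Set.univ ×ˢ (Set.pi (s.preimage Nat.succ hinj.injOn : Finset ℕ) (fun i => t (i + 1))) := by
      ext ⟨a, f⟩
      simp only [Set.mem_preimage, Set.mem_pi, Finset.mem_coe, Set.mem_prod, Finset.mem_preimage,
        Set.mem_univ, true_and]
      constructor
      · intro h i hi
        exact h (i + 1) hi
      · intro h2 i hi
        cases i with
        | zero => exact absurd hi ho
        | succ n => exact h2 n hi
    have hs : s = (s.preimage Nat.succ hinj.injOn).image Nat.succ := by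
      ext i
      cases i with
      | zero => simp [ho]
      | succ n => simp
    rw [e, Measure.prod_prod, Measure.infinitePi_pi _ (fun i _ => ht (i + 1))]
    conv_rhs => rw [hs]
    rw [Finset.prod_image (by intro a _ b _ h; exact hinj h)]
    simp

end Resample

/-! ### One particle -/

section OnePart

variable {V : Type} [MeasurableSpace V] [DiscreteMeasurableSpace V]
  (G : SimpleGraph V) [G.LocallyFinite]

lemma stepLaw_pos (v w : V) (h : G.Adj v w) : stepLaw G v {w} ≠ 0 := by
  have hne : (G.neighborSet v).Nonempty := ⟨w, h⟩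
  unfold stepLaw
  rw [if_pos hne]
  intro h0
  rw [uniformOn_eq_zero_iff (Set.toFinite _)] at h0
  have : w ∈ G.neighborSet v ∩ {w} := ⟨h, rfl⟩
  rw [h0] at this
  exact this

lemma visit_pos (hE : S_EXPP) {o x : V} (p : G.Walk o x) {t : ℝ} (ht : 0 < t) :
    partLaw G {ξ | x ∈ visits t o ξ} ≠ 0 := by
  classical
  have hsub : ({E : ℕ → ℝ | ∀ m ≤ p.length, ∑ i ∈ Finset.range m, E i ≤ t} ×ˢ
      (Set.pi ((Finset.range p.length).image (fun i => (i, p.getVert i)) : Finset (ℕ × V))
        (fun q => ({p.getVert (q.1 + 1)} : Set V)))) ⊆ {ξ : H979.FR.Part V | x ∈ visits t o ξ} := by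
    rintro ⟨E, c⟩ ⟨h1, h2⟩
    refine ⟨p.length, h1 _ le_rfl, ?_⟩
    have key : ∀ i, i ≤ p.length → path o c i = p.getVert i := by
      intro i
      induction i with
      | zero => intro _; simp [path]
      | succ i ih =>
        intro hi
        have h3 := ih (by omega)
        have h4 : c (i, p.getVert i) ∈ ({p.getVert (i + 1)} : Set V) :=
          h2 (i, p.getVert i) (by
            rw [Finset.mem_coe, Finset.mem_image]
            exact ⟨i, Finset.mem_range.2 (by omega), rfl⟩)
        show c (i, path o c i) = _
        rw [h3]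
        exact h4
    show path o c p.length = x
    rw [key _ le_rfl, p.getVert_length]
  intro h0
  have h1 := measure_mono_null hsub h0
  unfold partLaw at h1
  rw [Measure.prod_prod, mul_eq_zero] at h1
  rcases h1 with h1 | h1
  · exact hE p.length t ht h1
  · unfold choiceLaw at h1
    rw [Measure.infinitePi_pi _ (fun i _ => MeasurableSet.of_discrete), Finset.prod_eq_zero_iff] at h1
    obtain ⟨q, hq, h2⟩ := h1
    rw [Finset.mem_image] at hq
    obtain ⟨i, hi, rfl⟩ := hq
    exact stepLaw_pos G _ _ (p.adj_getVert_succ (Finset.mem_range.1 hi)) h2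

end OnePart

/-! ### Adding a particle -/

section Add

variable {V : Type} [DecidableEq V]

/-- the number and the particles at a vertex, with one more particle -/
def add1 (q : (ℕ × (ℕ → H979.FR.Part V)) × H979.FR.Part V) : ℕ × (ℕ → H979.FR.Part V) := (q.1.1 + 1, cons0 (q.2, q.1.2))

/-- the configuration with one more particle `ζ` at `o` -/
def addAt (o : V) (q : Conf V × H979.FR.Part V) : Conf V := Function.update q.1 o (add1 (q.1 o, q.2))

lemma visited_add {t : ℝ} {ω : Conf V} {ζ : H979.FR.Part V} {o x : V} (hx : x ∈ visits t o ζ) :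
    ∀ y, Visited t ω x y → Visited t (addAt o (ω, ζ)) o y := by
  intro y hy
  induction hy with
  | start =>
    refine Visited.step (x := o) 0 Visited.start ?_ ?_
    · simp [addAt, add1]
    · simpa [addAt, add1, cons0] using hx
  | step i h1 h2 h3 ih =>
    rename_i a b
    by_cases ha : a = o
    · subst ha
      refine Visited.step (x := a) (i + 1) ih ?_ ?_
      · simpa [addAt, add1] using h2
      · simpa [addAt, add1, cons0] using h3
    · refine Visited.step (x := a) i ih ?_ ?_
      · simpa [addAt, Function.update_of_ne ha] using h2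
      · simpa [addAt, Function.update_of_ne ha] using h3

lemma survives_add {t : ℝ} {ω : Conf V} {ζ : H979.FR.Part V} {o x : V} (hx : x ∈ visits t o ζ)
    (hω : ω ∈ Survives t x) : addAt o (ω, ζ) ∈ Survives t o :=
  Set.Infinite.mono (fun y hy => visited_add hx y hy) hω

end Add

section Main

variable {V : Type} [MeasurableSpace V] [DiscreteMeasurableSpace V]
  (G : SimpleGraph V) [G.LocallyFinite]

/-- the law at one vertex -/
noncomputable def siteLaw (lam : ℝ≥0) : Measure (ℕ × (ℕ → H979.FR.Part V)) :=
  (poissonMeasure lam).prod (Measure.infinitePi fun _ : ℕ => partLaw G)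

instance (lam : ℝ≥0) : IsProbabilityMeasure (siteLaw G lam) := by unfold siteLaw; infer_instance

lemma law_eq (lam : ℝ≥0) : law G lam = Measure.infinitePi fun _ : V => siteLaw G lam := rfl

lemma add1_meas : Measurable (add1 : (ℕ × (ℕ → H979.FR.Part V)) × H979.FR.Part V → _) := by
  unfold add1
  refine Measurable.prodMk ?_ ?_
  · exact (measurable_of_countable (fun n : ℕ => n + 1)).comp
      (measurable_fst.comp measurable_fst)
  · exact cons0_meas.comp (measurable_snd.prodMk (measurable_snd.comp measurable_fst))

lemma add1_null (lam : ℝ≥0) (hl : 0 < lam) (F : Set (ℕ × (ℕ → H979.FR.Part V)))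
    (hF : MeasurableSet F) (h0 : siteLaw G lam F = 0) :
    ((siteLaw G lam).prod (partLaw G)) (add1 ⁻¹' F) = 0 := by
  have hn : ∀ n : ℕ, (Measure.infinitePi fun _ : ℕ => partLaw G) {f | (n, f) ∈ F} = 0 := by
    intro n
    have h1 : ({n} : Set ℕ) ×ˢ {f | (n, f) ∈ F} ⊆ F := by
      rintro ⟨m, f⟩ ⟨h1, h2⟩
      rw [Set.mem_singleton_iff] at h1
      simp only at h1
      subst h1
      exact h2
    have h2 := measure_mono_null h1 h0
    unfold siteLaw at h2
    rw [Measure.prod_prod, mul_eq_zero] at h2
    rcases h2 with h2 | h2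
    · exfalso
      have := poissonMeasure_real_singleton_pos n hl
      rw [measureReal_def, h2] at this
      simp at this
    · exact h2
  have hsub : (add1 ⁻¹' F : Set ((ℕ × (ℕ → H979.FR.Part V)) × H979.FR.Part V)) ⊆
      ⋃ n : ℕ, (fun q : (ℕ × (ℕ → H979.FR.Part V)) × H979.FR.Part V => cons0 (q.2, q.1.2)) ⁻¹'
        {f | (n, f) ∈ F} := by
    rintro ⟨⟨n, f⟩, ζ⟩ h
    exact Set.mem_iUnion.2 ⟨n + 1, h⟩
  refine measure_mono_null hsub (measure_iUnion_null fun n => ?_)
  have hm : MeasurableSet {f : ℕ → H979.FR.Part V | (n, f) ∈ F} :=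
    hF.preimage measurable_prodMk_left
  have hc : Measurable (fun q : (ℕ × (ℕ → H979.FR.Part V)) × H979.FR.Part V =>
      (cons0 (q.2, q.1.2) : ℕ → H979.FR.Part V)) :=
    cons0_meas.comp (measurable_snd.prodMk (measurable_snd.comp measurable_fst))
  -- the law of `(f, ζ)`
  have hmp : MeasurePreserving
      (fun q : (ℕ × (ℕ → H979.FR.Part V)) × H979.FR.Part V => (q.2, q.1.2))
      ((siteLaw G lam).prod (partLaw G))
      ((partLaw G).prod (Measure.infinitePi fun _ : ℕ => partLaw G)) := by
    have a1 : MeasurePreserving (Prod.snd : ℕ × (ℕ → H979.FR.Part V) → _)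
        (siteLaw G lam) (Measure.infinitePi fun _ : ℕ => partLaw G) := by
      unfold siteLaw
      exact measurePreserving_snd
    have a2 := (a1.prod (MeasurePreserving.id (partLaw G)))
    exact (Measure.measurePreserving_swap (μ := Measure.infinitePi fun _ : ℕ => partLaw G)
      (ν := partLaw G)).comp a2
  have h3 := hmp.measure_preimage (s := cons0 ⁻¹' {f : ℕ → H979.FR.Part V | (n, f) ∈ F})
    (hm.preimage cons0_meas).nullMeasurableSet
  rw [← Measure.map_apply cons0_meas hm, cons0_map, hn n] at h3
  exact h3

open Classical in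
lemma addAt_null (lam : ℝ≥0) (hl : 0 < lam) (o : V) (A : Set (Conf V))
    (h0 : law G lam A = 0) :
    ((law G lam).prod (partLaw G)) (addAt o ⁻¹' A) = 0 := by
  -- replace `A` by a measurable set
  obtain ⟨A', hA, hA'm, hA'0⟩ := exists_measurable_superset_of_null h0
  refine measure_mono_null (Set.preimage_mono hA) ?_
  have hmA : Measurable (addAt o : Conf V × H979.FR.Part V → Conf V) := by
    have : (addAt o : Conf V × H979.FR.Part V → Conf V) =
        (fun q : (ℕ × (ℕ → H979.FR.Part V)) × Conf V => (Function.update q.2 o q.1 : Conf V)) ∘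
        (fun q : Conf V × H979.FR.Part V => (add1 (q.1 o, q.2), q.1)) := rfl
    rw [this]
    exact (upd_meas o).comp ((add1_meas.comp
      (((measurable_pi_apply o).comp measurable_fst).prodMk measurable_snd)).prodMk measurable_fst)
  -- resampling
  have hres : MeasurePreserving
      (fun q : (ℕ × (ℕ → H979.FR.Part V)) × Conf V => (Function.update q.2 o q.1 : Conf V))
      ((siteLaw G lam).prod (law G lam)) (law G lam) := by
    refine ⟨upd_meas o, ?_⟩
    rw [law_eq]
    exact upd_map (siteLaw G lam) o
  have hres2 := hres.prod (MeasurePreserving.id (partLaw G))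
  have h1 := hres2.measure_preimage (s := addAt o ⁻¹' A') (hA'm.preimage hmA).nullMeasurableSet
  rw [← h1]
  -- the preimage
  have h2 : ((siteLaw G lam).prod (law G lam))
      ((fun q : (ℕ × (ℕ → H979.FR.Part V)) × Conf V =>
        (Function.update q.2 o q.1 : Conf V)) ⁻¹' A') = 0 := by
    rw [hres.measure_preimage hA'm.nullMeasurableSet, hA'0]
  have h3 : ((law G lam).prod (siteLaw G lam))
      ((fun q : Conf V × (ℕ × (ℕ → H979.FR.Part V)) =>
        (Function.update q.1 o q.2 : Conf V)) ⁻¹' A') = 0 := by
    have hW : MeasurableSet ((fun q : Conf V × (ℕ × (ℕ → H979.FR.Part V)) =>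
        (Function.update q.1 o q.2 : Conf V)) ⁻¹' A') :=
      hA'm.preimage ((upd_meas o).comp measurable_swap)
    rw [← (Measure.measurePreserving_swap (μ := siteLaw G lam)
      (ν := law G lam)).measure_preimage hW.nullMeasurableSet]
    exact h2
  have h4 := Measure.measure_ae_null_of_prod_null h3
  -- now for almost all `ω`
  have h5 : ((law G lam).prod ((siteLaw G lam).prod (partLaw G)))
      ((fun q : Conf V × ((ℕ × (ℕ → H979.FR.Part V)) × H979.FR.Part V) =>
        (Function.update q.1 o (add1 q.2) : Conf V)) ⁻¹' A') = 0 := by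
    have hmeas : Measurable (fun q : Conf V × ((ℕ × (ℕ → H979.FR.Part V)) × H979.FR.Part V) =>
        (Function.update q.1 o (add1 q.2) : Conf V)) :=
      (upd_meas o).comp ((add1_meas.comp measurable_snd).prodMk measurable_fst)
    rw [Measure.measure_prod_null (hA'm.preimage hmeas)]
    filter_upwards [h4] with ω hω
    have h6 : MeasurableSet (Prod.mk ω ⁻¹' ((fun q : Conf V × (ℕ × (ℕ → H979.FR.Part V)) =>
        (Function.update q.1 o q.2 : Conf V)) ⁻¹' A')) :=
      ((hA'm.preimage ((upd_meas o).comp measurable_swap))).preimage measurable_prodMk_left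
    exact add1_null G lam hl _ h6 hω
  -- compare
  have h7 : MeasurePreserving
      (fun q : ((ℕ × (ℕ → H979.FR.Part V)) × Conf V) × H979.FR.Part V => (q.1.2, (q.1.1, q.2)))
      (((siteLaw G lam).prod (law G lam)).prod (partLaw G))
      ((law G lam).prod ((siteLaw G lam).prod (partLaw G))) := by
    have b1 := (Measure.measurePreserving_swap (μ := siteLaw G lam) (ν := law G lam)).prod
      (MeasurePreserving.id (partLaw G))
    have b2 := measurePreserving_prodAssoc (law G lam) (siteLaw G lam) (partLaw G)
    exact b2.comp b1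
  have hmeas : Measurable (fun q : Conf V × ((ℕ × (ℕ → H979.FR.Part V)) × H979.FR.Part V) =>
        (Function.update q.1 o (add1 q.2) : Conf V)) :=
      (upd_meas o).comp ((add1_meas.comp measurable_snd).prodMk measurable_fst)
  rw [← h7.measure_preimage (hA'm.preimage hmeas).nullMeasurableSet] at h5
  have e : (Prod.map (fun q : (ℕ × (ℕ → H979.FR.Part V)) × Conf V =>
      (Function.update q.2 o q.1 : Conf V)) id) ⁻¹' (addAt o ⁻¹' A') =
      (fun q : ((ℕ × (ℕ → H979.FR.Part V)) × Conf V) × H979.FR.Part V =>
        (q.1.2, (q.1.1, q.2))) ⁻¹' ((fun q : Conf V × ((ℕ × (ℕ → H979.FR.Part V)) ×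
          H979.FR.Part V) => (Function.update q.1 o (add1 q.2) : Conf V)) ⁻¹' A') := by
    ext ⟨⟨s, ω⟩, ζ⟩
    simp [addAt]
  rw [e]
  exact h5

end Main

end FRINS

open Pool.Agent.H979.FR in
theorem fr_ins (h : S_EXPP) : S_INS := by
  intro V _ _ _ G _ hG lam hlam t ht x o hx ho
  classical
  obtain ⟨p⟩ := hG.preconnected o x
  have h1 := FRINS.addAt_null G lam hlam o _ ho
  have h2 : (Survives t x : Set (Conf V)) ×ˢ {ζ : H979.FR.Part V | x ∈ visits t o ζ} ⊆
      FRINS.addAt o ⁻¹' (Survives t o) := by
    rintro ⟨ω, ζ⟩ ⟨h3, h4⟩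
    exact FRINS.survives_add h4 h3
  have h3 := measure_mono_null h2 h1
  rw [Measure.prod_prod, mul_eq_zero] at h3
  rcases h3 with h3 | h3
  · exact hx h3
  · exact FRINS.visit_pos G h p ht h3

end Pool.Agent.H740
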